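import Pool.Agent.H62.MC.Defs

/-!
Closed affine shift-invariant sets over `ℤ/p` contain points of period `p ^ r`
(MP_cb0c3a_an, row MC-4).
-/

set_option autoImplicit false

open Set

namespace Pool.Agent.H62.MC

namespace Aff

/-- the group ring -/
abbrev RR (d p : ℕ) : Type := AddMonoidAlgebra (ZMod p) (G d)

/-- vectors over the group ring -/
abbrev MM (d k p : ℕ) : Type := Fin k → RR d p

variable {d k p : ℕ} [Fact p.Prime]

/-- monomials -/
noncomputable def mo (g : G d) : RR d p := AddMonoidAlgebra.single g 1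

/-- the functional given by a configuration -/
noncomputable def LL (t : G d → Fin k → ZMod p) : MM d k p →ₗ[ZMod p] ZMod p :=
  ∑ j : Fin k, (Finsupp.linearCombination (ZMod p) (fun g => t g j)) ∘ₗ
    (AddMonoidAlgebra.coeffLinearEquiv (ZMod p)).toLinearMap ∘ₗ LinearMap.proj j

theorem LL_single (t : G d → Fin k → ZMod p) (j : Fin k) (g : G d) (c : ZMod p) :
    LL t (Pi.single j (AddMonoidAlgebra.single g c)) = c * t g j := by
  unfold LL
  rw [LinearMap.sum_apply, Finset.sum_eq_single j]
  · simp [Finsupp.linearCombination_single]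
  · intro i _ hi
    simp [Pi.single_eq_of_ne hi]
  · intro h
    exact absurd (Finset.mem_univ j) h

theorem LL_one (t : G d → Fin k → ZMod p) (j : Fin k) (g : G d) :
    LL t (Pi.single j (mo g)) = t g j := by
  rw [mo, LL_single, one_mul]

/-- functionals are determined by their values on monomials -/
theorem hom_ext {f f' : MM d k p →ₗ[ZMod p] ZMod p}
    (h : ∀ j g, f (Pi.single j (mo g)) = f' (Pi.single j (mo g))) : f = f' := by
  apply LinearMap.pi_ext'
  intro j
  apply AddMonoidAlgebra.lhom_ext'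
  intro g
  ext
  exact h j g

theorem LL_of (f : MM d k p →ₗ[ZMod p] ZMod p) :
    LL (fun g j => f (Pi.single j (mo g))) = f :=
  hom_ext fun j g => by rw [LL_one]

theorem mo_mul (g h : G d) : (mo g : RR d p) * mo h = mo (g + h) := by
  rw [mo, mo, AddMonoidAlgebra.single_mul_single, one_mul, mo]

theorem mo_smul_single (g h : G d) (j : Fin k) :
    (mo g : RR d p) • (Pi.single j (mo h) : MM d k p) = Pi.single j (mo (g + h)) := by
  rw [← Pi.single_smul, smul_eq_mul, mo_mul]

theorem LL_mo (t : G d → Fin k → ZMod p) (g : G d) (u : MM d k p) :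
    LL t ((mo g : RR d p) • u) = LL (fun h => t (h + g)) u := by
  have h : LL t ∘ₗ (LinearMap.lsmul (RR d p) (MM d k p) (mo g)).restrictScalars (ZMod p) =
      LL (fun h => t (h + g)) := by
    apply hom_ext
    intro j h
    rw [LL_one]
    change LL t ((mo g : RR d p) • (Pi.single j (mo h) : MM d k p)) = _
    rw [mo_smul_single, LL_one, add_comm g h]
  exact congrArg (fun f => f u) h

theorem LL_sub (t t' : G d → Fin k → ZMod p) : LL (t - t') = LL t - LL t' := by
  apply hom_ext
  intro j g
  rw [LinearMap.sub_apply, LL_one, LL_one, LL_one]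
  rfl

/-- a subspace that is stable under the monomials -/
noncomputable def ofShift (N : Submodule (ZMod p) (MM d k p))
    (h : ∀ g : G d, ∀ u ∈ N, (mo g : RR d p) • u ∈ N) : Submodule (RR d p) (MM d k p) where
  carrier := N
  add_mem' := N.add_mem
  zero_mem' := N.zero_mem
  smul_mem' := by
    intro r u hu
    induction r using AddMonoidAlgebra.induction_on with
    | of g => exact h g u hu
    | add x y hx hy =>
      rw [add_smul]
      exact N.add_mem hx hy
    | smul c x hx =>
      rw [smul_assoc]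
      exact N.smul_mem c hx

/-- duality on finite windows -/
theorem approx (H : AddSubgroup (G d → Fin k → ZMod p)) (z : G d → Fin k → ZMod p)
    (hz : ∀ u : MM d k p, (∀ h ∈ H, LL h u = 0) → LL z u = 0) (F : Finset (G d)) :
    ∃ h ∈ H, ∀ g ∈ F, h g = z g := by
  classical
  -- the restriction to the window
  let res : (G d → Fin k → ZMod p) →+ (F → Fin k → ZMod p) :=
    { toFun := fun w g => w g.1
      map_zero' := rfl
      map_add' := fun _ _ => rfl }
  let B : Submodule (ZMod p) (F → Fin k → ZMod p) := AddSubgroup.toZModSubmodule p (H.map res)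
  have hB : ∀ w, w ∈ B ↔ w ∈ H.map res := fun w => Iff.rfl
  by_cases hmem : res z ∈ B
  · obtain ⟨h, hh, he⟩ := hmem
    exact ⟨h, hh, fun g hg => congrFun he ⟨g, hg⟩⟩
  exfalso
  obtain ⟨f, hf2, hf1⟩ := Submodule.exists_le_ker_of_notMem hmem
  let u : MM d k p := ∑ g : F, ∑ j : Fin k,
    Pi.single j (AddMonoidAlgebra.single g.1 (f (Pi.single g (Pi.single j 1))))
  have hu : ∀ w : G d → Fin k → ZMod p, LL w u = f (res w) := by
    intro w
    have h1 : res w = ∑ g : F, ∑ j : Fin k, (w g.1 j) •
        (Pi.single g (Pi.single j 1) : F → Fin k → ZMod p) := by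
      funext g' j'
      rw [Finset.sum_apply, Finset.sum_apply, Finset.sum_eq_single g', Finset.sum_apply,
        Finset.sum_apply, Finset.sum_eq_single j']
      · simp [res]
      · intro j _ hj
        simp [Pi.single_eq_of_ne (Ne.symm hj)]
      · intro h
        exact absurd (Finset.mem_univ _) h
      · intro g _ hg
        rw [Finset.sum_apply, Finset.sum_apply]
        refine Finset.sum_eq_zero fun j _ => ?_
        simp [Pi.single_eq_of_ne (Ne.symm hg)]
      · intro h
        exact absurd (Finset.mem_univ _) h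
    rw [h1, map_sum, map_sum]
    refine Finset.sum_congr rfl fun g _ => ?_
    rw [map_sum, map_sum]
    refine Finset.sum_congr rfl fun j _ => ?_
    rw [LL_single, map_smul, smul_eq_mul, mul_comm]
  have h1 := hz u (fun h hh => by
    rw [hu]
    exact hf1 ⟨h, hh, rfl⟩)
  rw [hu] at h1
  exact hf2 h1

end Aff

open Aff

/-- closed affine shift-invariant sets over `ℤ/p` contain points of period `p^r` -/
theorem affine_periodic (d k p : ℕ) [Fact p.Prime] (T : Set (G d → Fin k → ZMod p))
    (hne : T.Nonempty)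
    (hcl : ∀ z, (∀ F : Finset (G d), ∃ t ∈ T, ∀ g ∈ F, t g = z g) → z ∈ T)
    (haff : ∀ x ∈ T, ∀ y ∈ T, ∀ z ∈ T, x - y + z ∈ T)
    (hinv : ∀ g : G d, ∀ t ∈ T, (fun h => t (h + g)) ∈ T) :
    ∃ r : ℕ, ∃ t ∈ T, ∀ g h : G d, t (h + (p ^ r) • g) = t h := by
  classical
  obtain ⟨t0, ht0⟩ := hne
  -- the group of differences
  let H : AddSubgroup (G d → Fin k → ZMod p) :=
    { carrier := {h | h + t0 ∈ T}
      zero_mem' := by
        change (0 : G d → Fin k → ZMod p) + t0 ∈ T
        rw [zero_add]
        exact ht0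
      add_mem' := by
        intro a b ha hb
        change a + b + t0 ∈ T
        have h1 := haff _ ha _ ht0 _ hb
        have h2 : a + t0 - t0 + (b + t0) = a + b + t0 := by abel
        rwa [h2] at h1
      neg_mem' := by
        intro a ha
        change -a + t0 ∈ T
        have h1 := haff _ ht0 _ ha _ ht0
        have h2 : t0 - (a + t0) + t0 = -a + t0 := by abel
        rwa [h2] at h1 }
  have hH : ∀ h, h ∈ H ↔ h + t0 ∈ T := fun _ => Iff.rfl
  -- the annihilator
  let K0 : Submodule (ZMod p) (MM d k p) :=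
    { carrier := {u | ∀ t ∈ T, LL t u = LL t0 u}
      zero_mem' := by
        intro t _
        rw [map_zero, map_zero]
      add_mem' := by
        intro a b ha hb t ht
        rw [map_add, map_add, ha t ht, hb t ht]
      smul_mem' := by
        intro c a ha t ht
        rw [map_smul, map_smul, ha t ht] }
  have hγ : ∀ (g : G d), ∀ u ∈ K0, LL t0 ((mo g : RR d p) • u) = LL t0 u := by
    intro g u hu
    rw [LL_mo]
    exact hu _ (hinv g t0 ht0)
  have hK0 : ∀ g : G d, ∀ u ∈ K0, (mo g : RR d p) • u ∈ K0 := by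
    intro g u hu t ht
    rw [hγ g u hu, LL_mo]
    exact hu _ (hinv g t ht)
  let K : Submodule (RR d p) (MM d k p) := ofShift K0 hK0
  have hK : ∀ u, u ∈ K ↔ u ∈ K0 := fun _ => Iff.rfl
  let N : Submodule (RR d p) (MM d k p) := ofShift (K0 ⊓ LinearMap.ker (LL t0)) (by
    rintro g u ⟨hu1, hu2⟩
    refine ⟨hK0 g u hu1, ?_⟩
    rw [SetLike.mem_coe, LinearMap.mem_ker] at hu2 ⊢
    rw [hγ g u hu1, hu2])
  have hN : ∀ u, u ∈ N ↔ u ∈ K0 ∧ LL t0 u = 0 := fun _ => Iff.rfl
  -- the augmentation ideal
  let I : Ideal (RR d p) := Ideal.span (Set.range fun g : G d => (mo g : RR d p) - 1)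
  have hIK : I • K ≤ N := by
    rw [Submodule.smul_le]
    intro r hr u hu
    have h1 : I ≤ N.colon (K : Set (MM d k p)) := by
      rw [Ideal.span_le]
      rintro _ ⟨g, rfl⟩
      rw [SetLike.mem_coe, Submodule.mem_colon]
      intro v hv
      have hv' : v ∈ K0 := hv
      rw [hN]
      have h2 : ((mo g : RR d p) - 1) • v = (mo g : RR d p) • v - v := by
        rw [sub_smul, one_smul]
      rw [h2]
      refine ⟨K0.sub_mem (hK0 g v hv') hv', ?_⟩
      rw [map_sub, hγ g v hv', sub_self]
    exact Submodule.mem_colon.1 (h1 hr) u hu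
  -- Noetherian
  have hnoeth : IsNoetherianRing (RR d p) := Algebra.FiniteType.isNoetherianRing (ZMod p) _
  have hchar : CharP (RR d p) p :=
    charP_of_injective_algebraMap (algebraMap (ZMod p) (RR d p)).injective p
  obtain ⟨k0, hk0⟩ := Ideal.exists_pow_inf_eq_pow_smul I K
  set r : ℕ := k0 + 1 with hr
  have hq : k0 < p ^ r := lt_of_lt_of_le (Nat.lt_succ_self k0)
    (Nat.lt_pow_self (Fact.out : p.Prime).one_lt).le
  refine ⟨r, ?_⟩
  let J : Submodule (RR d p) (MM d k p) :=
    (Ideal.span (Set.range fun g : G d => (mo ((p ^ r) • g) : RR d p) - 1)) • ⊤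
  have hmop : ∀ (g : G d) (n : ℕ), (mo g : RR d p) ^ n = mo (n • g) := by
    intro g n
    rw [mo, AddMonoidAlgebra.single_pow, one_pow, mo]
  have hJ : J ≤ I ^ (p ^ r) • (⊤ : Submodule (RR d p) (MM d k p)) := by
    apply Submodule.smul_mono_left
    rw [Ideal.span_le]
    rintro _ ⟨g, rfl⟩
    have h1 : (mo ((p ^ r) • g) : RR d p) - 1 = ((mo g : RR d p) - 1) ^ (p ^ r) := by
      rw [sub_pow_char_pow, one_pow, hmop]
    change (mo ((p ^ r) • g) : RR d p) - 1 ∈ I ^ (p ^ r)
    rw [h1]
    exact Ideal.pow_mem_pow (Ideal.subset_span (Set.mem_range_self g)) _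
  have hJK : J ⊓ K ≤ N := by
    refine le_trans (inf_le_inf_right K hJ) ?_
    rw [hk0 _ hq.le]
    refine le_trans ?_ hIK
    refine Submodule.smul_mono ?_ inf_le_right
    exact Ideal.pow_le_self (by omega)
  -- the functional
  have hdual : LL t0 ∈ (J.restrictScalars (ZMod p) ⊓ K0).dualAnnihilator := by
    rw [Submodule.mem_dualAnnihilator]
    rintro u ⟨hu1, hu2⟩
    exact ((hN u).1 (hJK ⟨hu1, hu2⟩)).2
  rw [Subspace.dualAnnihilator_inf_eq, Submodule.mem_sup] at hdual
  obtain ⟨ψ, hψ, α, hα, hsum⟩ := hdual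
  rw [Submodule.mem_dualAnnihilator] at hψ hα
  refine ⟨fun g j => ψ (Pi.single j (mo g)), ?_, ?_⟩
  · apply hcl
    intro F
    obtain ⟨h, hh, hF⟩ := approx H ((fun g j => ψ (Pi.single j (mo g))) - t0) (by
      intro u hu
      have huK : u ∈ K0 := by
        intro t ht
        have h1 := hu (t - t0) (by
          rw [hH, sub_add_cancel]
          exact ht)
        rw [LL_sub, LinearMap.sub_apply, sub_eq_zero] at h1
        exact h1
      rw [LL_sub, LL_of, LinearMap.sub_apply, ← hsum, LinearMap.add_apply, hα u huK, add_zero,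
        sub_self]) F
    refine ⟨h + t0, (hH h).1 hh, fun g hg => ?_⟩
    rw [Pi.add_apply, hF g hg, Pi.sub_apply, sub_add_cancel]
  · intro g h
    funext j
    change ψ (Pi.single j (mo (h + (p ^ r) • g))) = ψ (Pi.single j (mo h))
    rw [← sub_eq_zero, ← map_sub]
    apply hψ
    change (Pi.single j (mo (h + (p ^ r) • g)) : MM d k p) - Pi.single j (mo h) ∈ J
    have h1 : (Pi.single j (mo (h + (p ^ r) • g)) : MM d k p) - Pi.single j (mo h) =
        ((mo ((p ^ r) • g) : RR d p) - 1) • (Pi.single j (mo h) : MM d k p) := by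
      rw [sub_smul, one_smul, mo_smul_single, add_comm h]
    rw [h1]
    exact Submodule.smul_mem_smul (Ideal.subset_span (Set.mem_range_self g)) Submodule.mem_top

end Pool.Agent.H62.MC
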