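import Mathlib

/-!
Periodic points in subshifts which are closed under a Maltsev operation (MP_cb0c3a_an, helper62).
Common definitions.
-/

set_option autoImplicit false

open Set

namespace Pool.Agent.H62.MC

/-- The group `ℤ^d`. -/
abbrev G (d : ℕ) : Type := Fin d → ℤ

/-- `m` is a Maltsev operation. -/
def IsMaltsev {A : Type} (m : A → A → A → A) : Prop :=
  (∀ x y, m x y y = x) ∧ ∀ x y, m y y x = x

/-- `B` is closed under `m`. -/
def ClosedUnder {A : Type} (m : A → A → A → A) (B : Set A) : Prop :=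
  ∀ x ∈ B, ∀ y ∈ B, ∀ z ∈ B, m x y z ∈ B

/-- `E` is a congruence of the subalgebra `B`. -/
structure Cong {A : Type} (m : A → A → A → A) (B : Set A) (E : A → A → Prop) : Prop where
  left : ∀ a b, E a b → a ∈ B
  right : ∀ a b, E a b → b ∈ B
  refl : ∀ a ∈ B, E a a
  symm : ∀ a b, E a b → E b a
  trans : ∀ a b c, E a b → E b c → E a c
  comp : ∀ a a' b b' c c', E a a' → E b b' → E c c' → E (m a b c) (m a' b' c')

/-- `E` is a maximal proper congruence of `B`. -/
structure MaxCong {A : Type} (m : A → A → A → A) (B : Set A) (E : A → A → Prop) : Prop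
    extends Cong m B E where
  proper : ∃ a ∈ B, ∃ b ∈ B, ¬ E a b
  maximal : ∀ E' : A → A → Prop, Cong m B E' → (∀ a b, E a b → E' a b) →
    (∀ a b, E' a b → E a b) ∨ ∀ a ∈ B, ∀ b ∈ B, E' a b

end Pool.Agent.H62.MC
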