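import Pool.Agent.H62.MC.Defs

/-!
Determined and free coordinates of closed sets of configurations which are closed under a Maltsev
operation (MP_cb0c3a_an, helper62).
-/

set_option autoImplicit false

open Set

namespace Pool.Agent.H62.MC

variable {A V : Type}

/-- the values of the elements of `S` at the place `v` -/
def val (S : Set (V → A)) (v : V) : Set A := (fun z : V → A => z v) '' S

theorem mem_val {S : Set (V → A)} {z : V → A} (hz : z ∈ S) (v : V) : z v ∈ val S v :=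
  ⟨z, hz, rfl⟩

/-- `S` is closed under the cellwise operation `m` -/
def Mal (m : A → A → A → A) (S : Set (V → A)) : Prop :=
  ∀ x ∈ S, ∀ y ∈ S, ∀ z ∈ S, (fun v => m (x v) (y v) (z v)) ∈ S

theorem Mal.val {m : A → A → A → A} {S : Set (V → A)} (h : Mal m S) (v : V) :
    ClosedUnder m (val S v) := by
  rintro _ ⟨x, hx, rfl⟩ _ ⟨y, hy, rfl⟩ _ ⟨z, hz, rfl⟩
  exact ⟨_, h x hx y hy z hz, rfl⟩

/-- elements of `S` which agree on `F` modulo `E` agree at `w` modulo `E` -/
def Det (S : Set (V → A)) (E : V → A → A → Prop) (F : Finset V) (w : V) : Prop :=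
  ∀ z ∈ S, ∀ z' ∈ S, (∀ v ∈ F, E v (z v) (z' v)) → E w (z w) (z' w)

section

variable {m : A → A → A → A} (hm : IsMaltsev m) {S : Set (V → A)} (hS : Mal m S)
  {E : V → A → A → Prop} (hE : ∀ v, Cong m (val S v) (E v))

include hm hS hE

/-- a coordinate which is not determined by the places in `F` is free over them -/
theorem dichotomy {w : V} (hw : MaxCong m (val S w) (E w)) {F : Finset V} (hdet : ¬ Det S E F w)
    {z : V → A} (hz : z ∈ S) {b : A} (hb : b ∈ val S w) :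
    ∃ z' ∈ S, (∀ v ∈ F, E v (z' v) (z v)) ∧ E w (z' w) b := by
  have key := hw.maximal (fun a b => ∃ x ∈ S, ∃ x' ∈ S, (∀ v ∈ F, E v (x v) (x' v)) ∧
    E w (x w) a ∧ E w (x' w) b) (by
      refine ⟨?_, ?_, ?_, ?_, ?_, ?_⟩
      · rintro a b ⟨x, -, x', -, -, h1, -⟩
        exact (hE w).right _ _ h1
      · rintro a b ⟨x, -, x', -, -, -, h1⟩
        exact (hE w).right _ _ h1
      · rintro a ⟨x, hx, rfl⟩
        exact ⟨x, hx, x, hx, fun v _ => (hE v).refl _ (mem_val hx v),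
          (hE w).refl _ (mem_val hx w), (hE w).refl _ (mem_val hx w)⟩
      · rintro a b ⟨x, hx, x', hx', h1, h2, h3⟩
        exact ⟨x', hx', x, hx, fun v hv => (hE v).symm _ _ (h1 v hv), h3, h2⟩
      · rintro a b c ⟨x, hx, x', hx', h1, h2, h3⟩ ⟨y, hy, y', hy', k1, k2, k3⟩
        refine ⟨_, hS x hx x' hx' y hy, y', hy', fun v hv => ?_, ?_, k3⟩
        · refine (hE v).trans _ _ _ ((hE v).comp _ _ _ _ _ _ (h1 v hv)
            ((hE v).refl _ (mem_val hx' v)) (k1 v hv)) ?_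
          rw [hm.2]
          exact (hE v).refl _ (mem_val hy' v)
        · have h4 : E w (m (x w) (x' w) (y w)) (m a b b) :=
            (hE w).comp _ _ _ _ _ _ h2 h3 k2
          rwa [hm.1] at h4
      · rintro a a' b b' c c' ⟨x, hx, x', hx', h1, h2, h3⟩ ⟨y, hy, y', hy', k1, k2, k3⟩
          ⟨u, hu, u', hu', l1, l2, l3⟩
        exact ⟨_, hS x hx y hy u hu, _, hS x' hx' y' hy' u' hu',
          fun v hv => (hE v).comp _ _ _ _ _ _ (h1 v hv) (k1 v hv) (l1 v hv),
          (hE w).comp _ _ _ _ _ _ h2 k2 l2, (hE w).comp _ _ _ _ _ _ h3 k3 l3⟩) (by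
      intro a b hab
      obtain ⟨x, hx, rfl⟩ := (hE w).left _ _ hab
      exact ⟨x, hx, x, hx, fun v _ => (hE v).refl _ (mem_val hx v),
        (hE w).refl _ (mem_val hx w), hab⟩)
  rcases key with h | h
  · exfalso
    apply hdet
    intro x hx x' hx' h1
    exact h _ _ ⟨x, hx, x', hx', h1, (hE w).refl _ (mem_val hx w),
      (hE w).refl _ (mem_val hx' w)⟩
  · obtain ⟨x, hx, x', hx', h1, h2, h3⟩ := h (z w) (mem_val hz w) b hb
    refine ⟨_, hS x' hx' x hx z hz, fun v hv => ?_, ?_⟩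
    · have h4 : E v (m (x' v) (x v) (z v)) (m (x v) (x v) (z v)) :=
        (hE v).comp _ _ _ _ _ _ ((hE v).symm _ _ (h1 v hv)) ((hE v).refl _ (mem_val hx v))
          ((hE v).refl _ (mem_val hz v))
      rwa [hm.2] at h4
    · have h4 : E w (m (x' w) (x w) (z w)) (m b (z w) (z w)) :=
        (hE w).comp _ _ _ _ _ _ h3 h2 ((hE w).refl _ (mem_val hz w))
      rwa [hm.1] at h4

/-- coordinates which depend on at least two places -/
def IsV1 (S : Set (V → A)) (E : V → A → A → Prop) (w : V) : Prop :=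
  ∃ (F F₁ F₂ : Finset V) (i j : V), i ∈ F ∧ j ∈ F ∧ i ≠ j ∧ (∀ v ∈ F, v ≠ i → v ∈ F₁) ∧
    (∀ v ∈ F, v ≠ j → v ∈ F₂) ∧ Det S E F w ∧ ¬ Det S E F₁ w ∧ ¬ Det S E F₂ w

/-- at the coordinates of the first kind the quotient is an abelian group -/
theorem star {w : V} (hw : MaxCong m (val S w) (E w)) (h1 : IsV1 S E w) {y₀ : V → A}
    (hy₀ : y₀ ∈ S) : ∀ x ∈ val S w, ∀ y ∈ val S w, ∀ z ∈ val S w, ∀ x' ∈ val S w,
      ∀ y' ∈ val S w, ∀ z' ∈ val S w,
      E w (m (m x (y₀ w) x') (m y (y₀ w) y') (m z (y₀ w) z'))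
        (m (m x y z) (y₀ w) (m x' y' z')) := by
  obtain ⟨F, F₁, F₂, i, j, hi, hj, hij, hF₁, hF₂, hdet, hn1, hn2⟩ := h1
  have hX : ∀ x ∈ val S w, ∃ X ∈ S, (∀ v ∈ F, v ≠ i → E v (X v) (y₀ v)) ∧ E w (X w) x := by
    intro x hx
    obtain ⟨X, hX, h1, h2⟩ := dichotomy hm hS hE hw hn1 hy₀ hx
    exact ⟨X, hX, fun v hv hvi => h1 v (hF₁ v hv hvi), h2⟩
  have hY : ∀ x ∈ val S w, ∃ X ∈ S, (∀ v ∈ F, v ≠ j → E v (X v) (y₀ v)) ∧ E w (X w) x := by
    intro x hx
    obtain ⟨X, hX, h1, h2⟩ := dichotomy hm hS hE hw hn2 hy₀ hx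
    exact ⟨X, hX, fun v hv hvi => h1 v (hF₂ v hv hvi), h2⟩
  intro x hx y hy z hz x' hx' y' hy' z' hz'
  obtain ⟨X, hXS, hX1, hX2⟩ := hX x hx
  obtain ⟨Y, hYS, hY1, hY2⟩ := hX y hy
  obtain ⟨Z, hZS, hZ1, hZ2⟩ := hX z hz
  obtain ⟨X', hXS', hX1', hX2'⟩ := hY x' hx'
  obtain ⟨Y', hYS', hY1', hY2'⟩ := hY y' hy'
  obtain ⟨Z', hZS', hZ1', hZ2'⟩ := hY z' hz'
  have hP := hS _ (hS _ hXS _ hy₀ _ hXS') _ (hS _ hYS _ hy₀ _ hYS') _ (hS _ hZS _ hy₀ _ hZS')
  have hP' := hS _ (hS _ hXS _ hYS _ hZS) _ hy₀ _ (hS _ hXS' _ hYS' _ hZS')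
  have key := hdet _ hP _ hP' (by
    intro v hv
    have r : ∀ {u : V → A}, u ∈ S → E v (u v) (u v) := fun hu => (hE v).refl _ (mem_val hu v)
    by_cases hvi : v = i
    · -- here the primed configurations equal the base point
      have hvj : v ≠ j := hvi ▸ hij
      have e : ∀ {U U' : V → A}, U ∈ S → E v (U' v) (y₀ v) →
          E v (m (U v) (y₀ v) (U' v)) (U v) := by
        intro U U' hU hU'
        have := (hE v).comp _ _ _ _ _ _ (r hU) (r hy₀) hU'
        rwa [hm.1] at this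
      have e1 := (hE v).comp _ _ _ _ _ _ (e hXS (hX1' v hv hvj)) (e hYS (hY1' v hv hvj))
        (e hZS (hZ1' v hv hvj))
      have e2 := (hE v).comp _ _ _ _ _ _ (hX1' v hv hvj) (hY1' v hv hvj) (hZ1' v hv hvj)
      rw [hm.1] at e2
      exact (hE v).trans _ _ _ e1 ((hE v).symm _ _
        (e (U' := fun v => m (X' v) (Y' v) (Z' v)) (hS _ hXS _ hYS _ hZS) e2))
    · have e : ∀ {U U' : V → A}, U' ∈ S → E v (U v) (y₀ v) →
          E v (m (U v) (y₀ v) (U' v)) (U' v) := by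
        intro U U' hU hU'
        have := (hE v).comp _ _ _ _ _ _ hU' (r hy₀) (r hU)
        rwa [hm.2] at this
      have e1 := (hE v).comp _ _ _ _ _ _ (e hXS' (hX1 v hv hvi)) (e hYS' (hY1 v hv hvi))
        (e hZS' (hZ1 v hv hvi))
      have e2 := (hE v).comp _ _ _ _ _ _ (hX1 v hv hvi) (hY1 v hv hvi) (hZ1 v hv hvi)
      rw [hm.1] at e2
      exact (hE v).trans _ _ _ e1 ((hE v).symm _ _
        (e (U := fun v => m (X v) (Y v) (Z v)) (hS _ hXS' _ hYS' _ hZS') e2)))
  have r₀ := (hE w).refl _ (mem_val hy₀ w)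
  have l1 := (hE w).comp _ _ _ _ _ _ ((hE w).comp _ _ _ _ _ _ hX2 r₀ hX2')
    ((hE w).comp _ _ _ _ _ _ hY2 r₀ hY2') ((hE w).comp _ _ _ _ _ _ hZ2 r₀ hZ2')
  have l2 := (hE w).comp _ _ _ _ _ _ ((hE w).comp _ _ _ _ _ _ hX2 hY2 hZ2) r₀
    ((hE w).comp _ _ _ _ _ _ hX2' hY2' hZ2')
  exact (hE w).trans _ _ _ ((hE w).symm _ _ l1) ((hE w).trans _ _ _ key l2)

end

/-- a coordinate of the second kind which is determined by `F` is determined by one place -/
theorem exists_link {m : A → A → A → A} {S : Set (V → A)} {E : V → A → A → Prop} {w : V}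
    (hw : MaxCong m (val S w) (E w)) (h2 : ¬ IsV1 S E w) {F : Finset V} (hdet : Det S E F w) :
    ∃ v ∈ F, Det S E {v} w := by
  classical
  induction F using Finset.strongInduction with
  | H F ih =>
    by_cases h : ∃ i ∈ F, Det S E (F.erase i) w
    · obtain ⟨i, hi, hd⟩ := h
      obtain ⟨v, hv, hvd⟩ := ih _ (Finset.erase_ssubset hi) hd
      exact ⟨v, Finset.mem_of_mem_erase hv, hvd⟩
    · push Not at h
      rcases F.eq_empty_or_nonempty with rfl | ⟨i, hi⟩
      · exfalso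
        obtain ⟨_, ⟨x, hx, rfl⟩, _, ⟨y, hy, rfl⟩, hxy⟩ := hw.proper
        exact hxy (hdet x hx y hy (by simp))
      · by_cases hj : ∃ j ∈ F, i ≠ j
        · obtain ⟨j, hj, hij⟩ := hj
          exact absurd ⟨F, F.erase i, F.erase j, i, j, hi, hj, hij,
            fun v hv hvi => Finset.mem_erase.2 ⟨hvi, hv⟩,
            fun v hv hvj => Finset.mem_erase.2 ⟨hvj, hv⟩, hdet, h i hi, h j hj⟩ h2
        · push Not at hj
          have hF : F = {i} := by
            apply Finset.eq_singleton_iff_unique_mem.2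
            exact ⟨hi, fun j hj' => (hj j hj').symm⟩
          exact ⟨i, hi, hF ▸ hdet⟩

section

variable {m : A → A → A → A} (hm : IsMaltsev m) {S : Set (V → A)} (hS : Mal m S)
  {E : V → A → A → Prop} (hE : ∀ v, Cong m (val S v) (E v))

include hm hS hE

/-- links are symmetric -/
theorem link_symm {v w : V} (hv : MaxCong m (val S v) (E v)) (hw : MaxCong m (val S w) (E w))
    (h : Det S E {v} w) : Det S E {w} v := by
  by_contra hcon
  obtain ⟨_, ⟨x, hx, rfl⟩, _, ⟨y, hy, rfl⟩, hxy⟩ := hw.proper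
  obtain ⟨z, hz, h1, h2⟩ := dichotomy hm hS hE hv hcon hx (mem_val hy v)
  have h3 := h z hz y hy (by
    intro u hu
    rw [Finset.mem_singleton] at hu
    subst hu
    exact h2)
  exact hxy ((hE w).trans _ _ _ ((hE w).symm _ _ (h1 w (Finset.mem_singleton_self w))) h3)

/-- link-consistent values at finitely many coordinates of the second kind are realised -/
theorem realize {a : V → A} (F : Finset V)
    (hmax : ∀ v ∈ F, MaxCong m (val S v) (E v)) (h2 : ∀ v ∈ F, ¬ IsV1 S E v)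
    (ha : ∀ v ∈ F, a v ∈ val S v) (hne : S.Nonempty)
    (hcons : ∀ v ∈ F, ∀ w ∈ F, Det S E {v} w → ∀ z ∈ S, E v (z v) (a v) → E w (z w) (a w)) :
    ∃ z ∈ S, ∀ v ∈ F, E v (z v) (a v) := by
  classical
  induction F using Finset.induction_on with
  | empty =>
    obtain ⟨z, hz⟩ := hne
    exact ⟨z, hz, by simp⟩
  | insert w F hw ih =>
    obtain ⟨z, hz, hz1⟩ := ih (fun v hv => hmax v (Finset.mem_insert_of_mem hv))
      (fun v hv => h2 v (Finset.mem_insert_of_mem hv))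
      (fun v hv => ha v (Finset.mem_insert_of_mem hv))
      (fun v hv w hw => hcons v (Finset.mem_insert_of_mem hv) w (Finset.mem_insert_of_mem hw))
    by_cases hd : Det S E F w
    · obtain ⟨v, hv, hvd⟩ := exists_link (hmax w (Finset.mem_insert_self _ _))
        (h2 w (Finset.mem_insert_self _ _)) hd
      refine ⟨z, hz, fun u hu => ?_⟩
      rcases Finset.mem_insert.1 hu with rfl | hu
      · exact hcons v (Finset.mem_insert_of_mem hv) u (Finset.mem_insert_self _ _) hvd z hz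
          (hz1 v hv)
      · exact hz1 u hu
    · obtain ⟨z', hz', h3, h4⟩ := dichotomy hm hS hE (hmax w (Finset.mem_insert_self _ _)) hd hz
        (ha w (Finset.mem_insert_self _ _))
      refine ⟨z', hz', fun u hu => ?_⟩
      rcases Finset.mem_insert.1 hu with rfl | hu
      · exact h4
      · exact (hE u).trans _ _ _ (h3 u hu) (hz1 u hu)

end

end Pool.Agent.H62.MC
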