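import Pool.Agent.H62.MC.Defs

/-!
Project MC (MP_cb0c3a_an), row MC-3: the isolator of a subgroup of `ℤ^d` has finite exponent
modulo the subgroup.
-/

set_option autoImplicit false

namespace Pool.Agent.H62.MC

/-- The isolator of `K`: elements with a positive multiple in `K`. -/
private def isol (d : ℕ) (K : AddSubgroup (G d)) : AddSubgroup (G d) where
  carrier := {u | ∃ k : ℕ, 0 < k ∧ k • u ∈ K}
  zero_mem' := ⟨1, Nat.one_pos, by rw [smul_zero]; exact K.zero_mem⟩
  add_mem' := by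
    rintro a b ⟨k, hk, ha⟩ ⟨l, hl, hb⟩
    refine ⟨k * l, Nat.mul_pos hk hl, ?_⟩
    rw [smul_add]
    refine K.add_mem ?_ ?_
    · rw [mul_comm, mul_smul]
      exact K.nsmul_mem ha l
    · rw [mul_smul]
      exact K.nsmul_mem hb k
  neg_mem' := by
    rintro a ⟨k, hk, ha⟩
    refine ⟨k, hk, ?_⟩
    rw [smul_neg]
    exact K.neg_mem ha

theorem exists_isolator (d : ℕ) (K : AddSubgroup (G d)) :
    ∃ e : ℕ, 0 < e ∧ ∀ u : G d, (∃ k : ℕ, 0 < k ∧ k • u ∈ K) → e • u ∈ K := by
  classical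
  have hfg : (AddSubgroup.toIntSubmodule (isol d K)).FG := IsNoetherian.noetherian _
  obtain ⟨S, hS⟩ := hfg
  have hk : ∀ s ∈ S, ∃ k : ℕ, 0 < k ∧ k • s ∈ K := by
    intro s hs
    have h1 : s ∈ AddSubgroup.toIntSubmodule (isol d K) := by
      rw [← hS]
      exact Submodule.subset_span hs
    exact h1
  choose! k hk0 hk1 using hk
  refine ⟨∏ s ∈ S, k s, Finset.prod_pos hk0, fun u hu => ?_⟩
  have hu' : u ∈ Submodule.span ℤ (S : Set (G d)) := by
    rw [hS]
    exact hu
  clear hu
  induction hu' using Submodule.span_induction with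
  | mem s hs =>
    have h2 : (∏ s ∈ S, k s) = (∏ t ∈ S.erase s, k t) * k s :=
      (Finset.prod_erase_mul S k hs).symm
    rw [h2, mul_smul]
    exact K.nsmul_mem (hk1 s hs) _
  | zero =>
    rw [smul_zero]
    exact K.zero_mem
  | add a b ha hb iha ihb =>
    rw [smul_add]
    exact K.add_mem iha ihb
  | smul c a ha iha =>
    rw [smul_comm]
    exact K.zsmul_mem iha c

end Pool.Agent.H62.MC
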