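import Pool.Agent.H62.MC.Defs

/-!
Row MC-2: a simple quotient with a commuting Maltsev operation is a group of prime order.
-/

set_option autoImplicit false

open Set

namespace Pool.Agent.H62.MC

/-- The abelian group of a Maltsev operation which commutes with `x, y ↦ mq x o y`. -/
@[reducible] private def labelGroup {Q : Type} (mq : Q → Q → Q → Q) (o : Q)
    (h1 : ∀ x y, mq x y y = x) (h2 : ∀ x y, mq y y x = x)
    (hs : ∀ x y z x' y' z', mq (mq x o x') (mq y o y') (mq z o z') =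
      mq (mq x y z) o (mq x' y' z')) : AddCommGroup Q where
  add x y := mq x o y
  zero := o
  neg x := mq o x o
  zero_add x := h2 x o
  add_zero x := h1 x o
  add_comm x y := by
    show mq x o y = mq y o x
    have h := hs o o y x o o
    rw [h2 x o, h1 o o, h1 y o, h2 y o, h1 x o] at h
    exact h
  add_assoc x y z := by
    show mq (mq x o y) o z = mq x o (mq y o z)
    have h := hs x o o y o z
    rw [h1 o o, h2 z o, h1 x o] at h
    exact h
  neg_add_cancel x := by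
    show mq (mq o x o) o x = o
    have h := hs o x o x o o
    rw [h2 x o, h1 x o, h1 o o, h2 o x] at h
    exact h.symm
  nsmul := @nsmulRec Q ⟨o⟩ ⟨fun x y => mq x o y⟩
  zsmul := @zsmulRec Q ⟨o⟩ ⟨fun x y => mq x o y⟩ ⟨fun x => mq o x o⟩
    (@nsmulRec Q ⟨o⟩ ⟨fun x y => mq x o y⟩)

private theorem label_group {Q : Type} (mq : Q → Q → Q → Q) (o : Q)
    (h1 : ∀ x y, mq x y y = x) (h2 : ∀ x y, mq y y x = x)
    (hs : ∀ x y z x' y' z', mq (mq x o x') (mq y o y') (mq z o z') =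
      mq (mq x y z) o (mq x' y' z')) :
    ∃ _ : AddCommGroup Q, ∀ x y z : Q, mq x y z = x - y + z := by
  refine ⟨labelGroup mq o h1 h2 hs, fun x y z => ?_⟩
  let _ := labelGroup mq o h1 h2 hs
  rw [sub_eq_add_neg]
  show mq x y z = mq (mq x o (mq o y o)) o z
  have e1 := hs x o o o y o
  rw [h1 x o, h2 y o, h1 o o] at e1
  have e2 := hs x y o o o z
  rw [h1 x o, h1 y o, h2 z o] at e2
  rw [← e1, ← e2]

/-- A simple quotient with a commuting Maltsev operation is a group of prime order. -/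
theorem exists_label {A : Type} [Finite A] {m : A → A → A → A} (hm : IsMaltsev m) {B : Set A}
    {E : A → A → Prop} (hE : MaxCong m B E) (o : A) (ho : o ∈ B)
    (hstar : ∀ x ∈ B, ∀ y ∈ B, ∀ z ∈ B, ∀ x' ∈ B, ∀ y' ∈ B, ∀ z' ∈ B,
      E (m (m x o x') (m y o y') (m z o z')) (m (m x y z) o (m x' y' z'))) :
    ∃ p : ℕ, p.Prime ∧ p ≤ Nat.card A ∧ ∃ lam : A → ZMod p,
      (∀ x ∈ B, ∀ y ∈ B, (lam x = lam y ↔ E x y)) ∧
      ∀ x ∈ B, ∀ y ∈ B, ∀ z ∈ B, lam (m x y z) = lam x - lam y + lam z := by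
  classical
  have hB : ∀ x ∈ B, ∀ y ∈ B, ∀ z ∈ B, m x y z ∈ B := fun x hx y hy z hz =>
    hE.left _ _ (hE.comp _ _ _ _ _ _ (hE.refl x hx) (hE.refl y hy) (hE.refl z hz))
  let S : Setoid B := ⟨fun a b => E a b, ⟨fun a => hE.refl a a.2, fun h => hE.symm _ _ h,
    fun h h' => hE.trans _ _ _ h h'⟩⟩
  obtain ⟨Q, hQ⟩ : ∃ Q : Type, Q = Quotient S := ⟨_, rfl⟩
  obtain ⟨c, hcE, hcs⟩ : ∃ c : B → Q, (∀ a b : B, c a = c b ↔ E a b) ∧
      Function.Surjective c := by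
    subst hQ
    exact ⟨Quotient.mk S, fun a b => Quotient.eq (r := S), Quotient.mk_surjective⟩
  have hfin : Finite Q := Finite.of_surjective c hcs
  have hcard : Nat.card Q ≤ Nat.card A :=
    (Nat.card_le_card_of_surjective c hcs).trans
      (Nat.card_le_card_of_injective _ Subtype.val_injective)
  clear hQ
  obtain ⟨rep, hrep⟩ := hcs.hasRightInverse
  let mB : B → B → B → B := fun x y z => ⟨m x y z, hB x x.2 y y.2 z z.2⟩
  obtain ⟨mq, hmq⟩ : ∃ mq : Q → Q → Q → Q, ∀ x y z : B, mq (c x) (c y) (c z) = c (mB x y z) := by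
    refine ⟨fun x y z => c (mB (rep x) (rep y) (rep z)), fun x y z => ?_⟩
    show c (mB (rep (c x)) (rep (c y)) (rep (c z))) = c (mB x y z)
    rw [hcE]
    exact hE.comp _ _ _ _ _ _ ((hcE _ _).1 (hrep (c x))) ((hcE _ _).1 (hrep (c y)))
      ((hcE _ _).1 (hrep (c z)))
  let oB : B := ⟨o, ho⟩
  have h1 : ∀ x y, mq x y y = x := by
    intro x y
    obtain ⟨x, rfl⟩ := hcs x
    obtain ⟨y, rfl⟩ := hcs y
    rw [hmq]
    congr 1
    exact Subtype.ext (hm.1 _ _)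
  have h2 : ∀ x y, mq y y x = x := by
    intro x y
    obtain ⟨x, rfl⟩ := hcs x
    obtain ⟨y, rfl⟩ := hcs y
    rw [hmq]
    congr 1
    exact Subtype.ext (hm.2 _ _)
  have hs : ∀ x y z x' y' z', mq (mq x (c oB) x') (mq y (c oB) y') (mq z (c oB) z') =
      mq (mq x y z) (c oB) (mq x' y' z') := by
    intro x y z x' y' z'
    obtain ⟨x, rfl⟩ := hcs x
    obtain ⟨y, rfl⟩ := hcs y
    obtain ⟨z, rfl⟩ := hcs z
    obtain ⟨x', rfl⟩ := hcs x'
    obtain ⟨y', rfl⟩ := hcs y'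
    obtain ⟨z', rfl⟩ := hcs z'
    rw [hmq, hmq, hmq, hmq, hmq, hmq, hmq, hcE]
    exact hstar x x.2 y y.2 z z.2 x' x'.2 y' y'.2 z' z'.2
  obtain ⟨inst, hinst⟩ := label_group mq (c oB) h1 h2 hs
  have hnt : Nontrivial Q := by
    obtain ⟨a, ha, b, hb, hab⟩ := hE.proper
    exact ⟨c ⟨a, ha⟩, c ⟨b, hb⟩, fun h => hab ((hcE _ _).1 h)⟩
  have hsimple : IsSimpleAddGroup Q := by
    refine ⟨fun H _ => ?_⟩
    let E' : A → A → Prop := fun a b => ∃ (ha : a ∈ B) (hb : b ∈ B),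
      c ⟨a, ha⟩ - c ⟨b, hb⟩ ∈ H
    have hcong : Cong m B E' := by
      refine ⟨fun a b h => h.1, fun a b h => h.2.1, fun a ha => ⟨ha, ha, ?_⟩, ?_, ?_, ?_⟩
      · rw [sub_self]; exact H.zero_mem
      · rintro a b ⟨ha, hb, h⟩
        refine ⟨hb, ha, ?_⟩
        rw [← neg_sub]
        exact H.neg_mem h
      · rintro a b d ⟨ha, hb, h⟩ ⟨_, hd, h'⟩
        refine ⟨ha, hd, ?_⟩
        have := H.add_mem h h'
        rwa [sub_add_sub_cancel] at this
      · rintro a a' b b' d d' ⟨ha, ha', h⟩ ⟨hb, hb', h'⟩ ⟨hd, hd', h''⟩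
        refine ⟨hB a ha b hb d hd, hB a' ha' b' hb' d' hd', ?_⟩
        have e1 : c ⟨m a b d, hB a ha b hb d hd⟩ = c ⟨a, ha⟩ - c ⟨b, hb⟩ + c ⟨d, hd⟩ := by
          rw [← hinst, hmq]
        have e2 : c ⟨m a' b' d', hB a' ha' b' hb' d' hd'⟩ =
            c ⟨a', ha'⟩ - c ⟨b', hb'⟩ + c ⟨d', hd'⟩ := by
          rw [← hinst, hmq]
        rw [e1, e2]
        have e3 : c ⟨a, ha⟩ - c ⟨b, hb⟩ + c ⟨d, hd⟩ - (c ⟨a', ha'⟩ - c ⟨b', hb'⟩ + c ⟨d', hd'⟩) =
            (c ⟨a, ha⟩ - c ⟨a', ha'⟩) - (c ⟨b, hb⟩ - c ⟨b', hb'⟩) +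
              (c ⟨d, hd⟩ - c ⟨d', hd'⟩) := by abel
        rw [e3]
        exact H.add_mem (H.sub_mem h h') h''
    have hle : ∀ a b, E a b → E' a b := by
      intro a b h
      refine ⟨hE.left _ _ h, hE.right _ _ h, ?_⟩
      rw [(hcE ⟨a, hE.left _ _ h⟩ ⟨b, hE.right _ _ h⟩).2 h, sub_self]
      exact H.zero_mem
    rcases hE.maximal E' hcong hle with h | h
    · left
      rw [eq_bot_iff]
      intro x hx
      rw [AddSubgroup.mem_bot]
      obtain ⟨x', rfl⟩ := hcs x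
      obtain ⟨z, hz⟩ := hcs 0
      have h3 : E' x' z := ⟨x'.2, z.2, by
        show c x' - c z ∈ H
        rw [hz, sub_zero]; exact hx⟩
      rw [← hz, hcE]
      exact h _ _ h3
    · right
      rw [eq_top_iff]
      intro x _
      obtain ⟨x', rfl⟩ := hcs x
      obtain ⟨z, hz⟩ := hcs 0
      obtain ⟨ha, hb, h3⟩ := h x' x'.2 z z.2
      have h4 : c x' - c z ∈ H := h3
      rwa [hz, sub_zero] at h4
  have hp : (Nat.card Q).Prime := IsSimpleAddGroup.prime_card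
  have hcyc : IsAddCyclic Q := inferInstance
  refine ⟨Nat.card Q, hp, hcard, ?_⟩
  let φ : ZMod (Nat.card Q) ≃+ Q := zmodAddCyclicAddEquiv hcyc
  refine ⟨fun a => if ha : a ∈ B then φ.symm (c ⟨a, ha⟩) else 0, ?_, ?_⟩
  · intro x hx y hy
    simp only [hx, hy, dif_pos]
    rw [φ.symm.injective.eq_iff, hcE]
  · intro x hx y hy z hz
    simp only [hx, hy, hz, hB x hx y hy z hz, dif_pos]
    rw [← map_sub, ← map_add, ← hinst, hmq]

end Pool.Agent.H62.MC
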