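import Pool.Agent.H62.MC.Defs

/-!
Project MC (MP_cb0c3a_an), row MC-1: maximal proper congruences exist (helper66).
-/

set_option autoImplicit false

open Set

namespace Pool.Agent.H62.MC

private theorem mc1_eq_cong {A : Type} (m : A → A → A → A) (B : Set A)
    (hB : ClosedUnder m B) : Cong m B (fun a b => a ∈ B ∧ a = b) where
  left := fun a b h => h.1
  right := fun a b h => h.2 ▸ h.1
  refl := fun a h => ⟨h, rfl⟩
  symm := fun a b h => ⟨h.2 ▸ h.1, h.2.symm⟩
  trans := fun a b c h h' => ⟨h.1, h.2.trans h'.2⟩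
  comp := by
    rintro a a' b b' c c' ⟨ha, rfl⟩ ⟨hb, rfl⟩ ⟨hc, rfl⟩
    exact ⟨hB a ha b hb c hc, rfl⟩

theorem exists_maxCong {A : Type} [Finite A] (m : A → A → A → A) (B : Set A)
    (hB : ClosedUnder m B) (hne : B.Nontrivial) : ∃ E : A → A → Prop, MaxCong m B E := by
  let S : Set (A → A → Prop) := {E | Cong m B E ∧ ∃ a ∈ B, ∃ b ∈ B, ¬ E a b}
  have hS : S.Nonempty := by
    obtain ⟨a, ha, b, hb, hab⟩ := hne
    exact ⟨fun a b => a ∈ B ∧ a = b, mc1_eq_cong m B hB, a, ha, b, hb, fun h => hab h.2⟩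
  obtain ⟨E, hE, hmax⟩ := (Set.toFinite S).exists_maximal hS
  refine ⟨E, { hE.1 with proper := hE.2, maximal := ?_ }⟩
  intro E' hE' hle
  by_cases h : ∃ a ∈ B, ∃ b ∈ B, ¬ E' a b
  · left
    have h1 : E' ∈ S := ⟨hE', h⟩
    have h2 := hmax h1 (fun a b => hle a b)
    exact fun a b => h2 a b
  · right
    intro a ha b hb
    by_contra hc
    exact h ⟨a, ha, b, hb, hc⟩

end Pool.Agent.H62.MC
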