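import Pool.Agent.H62.MC.PinP
import Pool.Agent.H62.MC.MaxCong
import Pool.Agent.H62.MC.Label

/-!
Maltsev closed subshifts contain periodic points (MP_cb0c3a_an, helper62).
-/

set_option autoImplicit false

open Set

namespace Pool.Agent.H62.MC

variable {A : Type} [Finite A]

open Classical in
/-- a maximal proper congruence of `B` if there is one, else the full relation -/
noncomputable def mcong (m : A → A → A → A) (B : Set A) : A → A → Prop :=
  if h : ClosedUnder m B ∧ B.Nontrivial then (exists_maxCong m B h.1 h.2).choose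
  else fun a b => a ∈ B ∧ b ∈ B

theorem mcong_max {m : A → A → A → A} {B : Set A} (hB : ClosedUnder m B) (hn : B.Nontrivial) :
    MaxCong m B (mcong m B) := by
  rw [mcong, dif_pos ⟨hB, hn⟩]
  exact (exists_maxCong m B hB hn).choose_spec

theorem mcong_cong {m : A → A → A → A} {B : Set A} (hB : ClosedUnder m B) :
    Cong m B (mcong m B) := by
  by_cases hn : B.Nontrivial
  · exact (mcong_max hB hn).toCong
  · rw [mcong, dif_neg fun h => hn h.2]
    exact ⟨fun _ _ h => h.1, fun _ _ h => h.2, fun _ h => ⟨h, h⟩, fun _ _ h => ⟨h.2, h.1⟩,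
      fun _ _ _ h h' => ⟨h.1, h'.2⟩, fun _ _ _ _ _ _ h h' h'' =>
        ⟨hB _ h.1 _ h'.1 _ h''.1, hB _ h.2 _ h'.2 _ h''.2⟩⟩

/-- the quotient of `B` is affine over `ℤ/p` -/
def HasLab (m : A → A → A → A) (p : ℕ) (B : Set A) : Prop :=
  ∃ lam : A → ZMod p, (∀ x ∈ B, ∀ y ∈ B, (lam x = lam y ↔ mcong m B x y)) ∧
    ∀ x ∈ B, ∀ y ∈ B, ∀ z ∈ B, lam (m x y z) = lam x - lam y + lam z

open Classical in
/-- a choice of the labels -/
noncomputable def labOf (m : A → A → A → A) (p : ℕ) (B : Set A) : A → ZMod p :=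
  if h : HasLab m p B then h.choose else 0

theorem labOf_spec {m : A → A → A → A} {p : ℕ} {B : Set A} (h : HasLab m p B) :
    (∀ x ∈ B, ∀ y ∈ B, (labOf m p B x = labOf m p B y ↔ mcong m B x y)) ∧
    ∀ x ∈ B, ∀ y ∈ B, ∀ z ∈ B,
      labOf m p B (m x y z) = labOf m p B x - labOf m p B y + labOf m p B z := by
  rw [labOf, dif_pos h]
  exact h.choose_spec

variable {d : ℕ} {V : Type} [TopologicalSpace A] [DiscreteTopology A]

theorem val_mono {S S' : Set (V → A)} (h : S' ⊆ S) (v : V) : val S' v ⊆ val S v :=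
  image_mono h

theorem Sys.congr_act {m : A → A → A → A} {T T' : Act d V} {S : Set (V → A)}
    (h : ∀ g v, T.T g v = T'.T g v) (hS : Sys m T S) : Sys m T' S := by
  refine ⟨hS.ne, hS.closed, hS.mal, fun g z hz => ?_⟩
  have := hS.inv g z hz
  simpa only [h] using this

/-- all coordinates can be pinned modulo the maximal congruences -/
theorem pin_all {m : A → A → A → A} (hm : IsMaltsev m) {T : Act d V} {S : Set (V → A)}
    (hS : Sys m T S) :
    ∃ (N : ℕ) (hN : 0 < N) (S' : Set (V → A)), S' ⊆ S ∧ Sys m (T.pow N hN) S' ∧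
      ∀ z ∈ S', ∀ z' ∈ S', ∀ v, mcong m (val S v) (z v) (z' v) := by
  have hE : ∀ v, Cong m (val S v) (mcong m (val S v)) := fun v => mcong_cong (hS.mal.val v)
  have hEinv : ∀ g v, mcong m (val S (T.T g v)) = mcong m (val S v) := fun g v => by
    rw [hS.val_eq]
  have key : ∀ n : ℕ, ∃ (N : ℕ) (hN : 0 < N) (S' : Set (V → A)), S' ⊆ S ∧
      Sys m (T.pow N hN) S' ∧ Pinned S' (fun v => mcong m (val S v)) (fun v =>
        P2 m S (fun v => mcong m (val S v)) v ∨ ∃ p < n, p.Prime ∧ HasLab m p (val S v)) := by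
    intro n
    induction n with
    | zero =>
      obtain ⟨N, hN, S', h1, h2, h3⟩ := pin2 hm hS hE hEinv
      refine ⟨N, hN, S', h1, h2, fun z hz z' hz' v hv => ?_⟩
      rcases hv with hv | ⟨p, hp, -⟩
      · exact h3 z hz z' hz' v hv
      · exact absurd hp (by omega)
    | succ n ih =>
      obtain ⟨N, hN, S', h1, h2, h3⟩ := ih
      by_cases hp : n.Prime
      · have : Fact n.Prime := ⟨hp⟩
        obtain ⟨N', hN', S'', k1, k2, k3⟩ := pinP h2 n (fun v => HasLab m n (val S v))
          (by
            intro g v hv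
            change HasLab m n (val S (T.T (N • g) v))
            rwa [hS.val_eq])
          (fun v => labOf m n (val S v))
          (by
            intro g v _
            change labOf m n (val S (T.T (N • g) v)) = _
            rw [hS.val_eq])
          (by
            intro v hv x hx y hy z hz
            exact (labOf_spec hv).2 x (val_mono h1 v hx) y (val_mono h1 v hy) z
              (val_mono h1 v hz))
        refine ⟨N * N', Nat.mul_pos hN hN', S'', k1.trans h1, k2.congr_act ?_, ?_⟩
        · intro g v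
          simp only [Act.pow, smul_smul]
        · intro z hz z' hz' v hv
          rcases hv with hv | ⟨p, hpn, hp', hv⟩
          · exact h3 z (k1 hz) z' (k1 hz') v (Or.inl hv)
          · rcases Nat.lt_succ_iff_lt_or_eq.1 hpn with hlt | rfl
            · exact h3 z (k1 hz) z' (k1 hz') v (Or.inr ⟨p, hlt, hp', hv⟩)
            · exact ((labOf_spec hv).1 _ (mem_val (h1 (k1 hz)) v) _
                (mem_val (h1 (k1 hz')) v)).1 (k3 z hz z' hz' v hv)
      · refine ⟨N, hN, S', h1, h2, fun z hz z' hz' v hv => ?_⟩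
        rcases hv with hv | ⟨p, hpn, hp', hv⟩
        · exact h3 z hz z' hz' v (Or.inl hv)
        · rcases Nat.lt_succ_iff_lt_or_eq.1 hpn with hlt | rfl
          · exact h3 z hz z' hz' v (Or.inr ⟨p, hlt, hp', hv⟩)
          · exact absurd hp' hp
  obtain ⟨N, hN, S', h1, h2, h3⟩ := key (Nat.card A + 1)
  refine ⟨N, hN, S', h1, h2, fun z hz z' hz' v => ?_⟩
  by_cases hn : (val S v).Nontrivial
  · have hmax := mcong_max (hS.mal.val v) hn
    by_cases hv1 : IsV1 S (fun v => mcong m (val S v)) v
    · obtain ⟨y₀, hy₀⟩ := hS.ne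
      obtain ⟨p, hp, hpA, hlab⟩ := exists_label hm hmax (y₀ v) (mem_val hy₀ v)
        (star hm hS.mal (E := fun v => mcong m (val S v)) hE hmax hv1 hy₀)
      exact h3 z hz z' hz' v (Or.inr ⟨p, by omega, hp, hlab⟩)
    · exact h3 z hz z' hz' v (Or.inl ⟨hmax, hv1⟩)
  · rw [mcong, dif_neg fun h => hn h.2]
    exact ⟨mem_val (h1 hz) v, mem_val (h1 hz') v⟩

/-- existence of periodic points, by induction on the number of values -/
theorem periodic_aux {m : A → A → A → A} (hm : IsMaltsev m) (n : ℕ) :
    ∀ (T : Act d V) (S : Set (V → A)), Sys m T S → (∀ v, (val S v).ncard ≤ n + 1) →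
      ∃ N : ℕ, 0 < N ∧ ∃ z ∈ S, ∀ g v, z (T.T (N • g) v) = z v := by
  induction n with
  | zero =>
    intro T S hS h
    obtain ⟨z, hz⟩ := hS.ne
    refine ⟨1, one_pos, z, hz, fun g v => ?_⟩
    have h1 := (Set.ncard_le_one (toFinite _)).1 (h v)
    exact h1 _ (by rw [← hS.val_eq (1 • g) v]; exact mem_val hz _) _ (mem_val hz v)
  | succ n ih =>
    intro T S hS h
    obtain ⟨N, hN, S', h1, h2, h3⟩ := pin_all hm hS
    obtain ⟨N', hN', z, hz, h4⟩ := ih (T.pow N hN) S' h2 (by
      intro v
      by_cases hn : (val S v).Nontrivial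
      · obtain ⟨a, ha, b, hb, hab⟩ := (mcong_max (hS.mal.val v) hn).proper
        have h5 : val S' v ⊂ val S v := by
          refine ⟨val_mono h1 v, fun hsub => hab ?_⟩
          obtain ⟨x, hx, rfl⟩ := hsub ha
          obtain ⟨y, hy, rfl⟩ := hsub hb
          exact h3 x hx y hy v
        have h6 := Set.ncard_lt_ncard h5 (toFinite _)
        have h7 := h v
        omega
      · rw [Set.not_nontrivial_iff] at hn
        have h5 := (hn.anti (val_mono h1 v))
        have h6 := (Set.ncard_le_one (toFinite (val S' v))).2 fun a ha b hb => h5 ha hb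
        omega)
    refine ⟨N * N', Nat.mul_pos hN hN', z, h1 hz, fun g v => ?_⟩
    have h5 := h4 g v
    simp only [Act.pow, smul_smul] at h5
    exact h5

/-- Every nonempty closed shift-invariant set of configurations on `ℤ^d` over a finite alphabet
which is closed under a Maltsev operation contains a periodic point. -/
theorem exists_periodic {m : A → A → A → A} (hm : IsMaltsev m) (X : Set (G d → A))
    (hne : X.Nonempty) (hcl : IsClosed X)
    (hinv : ∀ g : G d, ∀ x ∈ X, (fun u => x (u + g)) ∈ X)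
    (hmal : ∀ x ∈ X, ∀ y ∈ X, ∀ z ∈ X, (fun u => m (x u) (y u) (z u)) ∈ X) :
    ∃ N : ℕ, 0 < N ∧ ∃ x ∈ X, ∀ u v : G d, x (u + N • v) = x u := by
  let T : Act d (G d) :=
    { T := fun g v => v + g
      zero := fun v => add_zero v
      add := fun g h v => by rw [add_comm g h, add_assoc]
      fin := ⟨{0}, fun v => ⟨v, 0, Finset.mem_singleton_self 0, (zero_add v).symm⟩⟩ }
  obtain ⟨N, hN, z, hz, h⟩ := periodic_aux hm (Nat.card A) T X ⟨hne, hcl, hmal, hinv⟩ (by
    intro v
    exact (Set.ncard_le_card (val X v)).trans (Nat.le_succ _))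
  exact ⟨N, hN, z, hz, fun u v => h v u⟩

end Pool.Agent.H62.MC
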