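import Pool.Agent.H62.MC.Det
import Pool.Agent.H62.MC.Isolator

/-!
Pinning the coordinates of the second kind to a periodic pattern (MP_cb0c3a_an, helper62).
-/

set_option autoImplicit false

open Set

namespace Pool.Agent.H62.MC

/-- an action of `ℤ^d` on `V` with finitely many orbits -/
structure Act (d : ℕ) (V : Type) where
  T : G d → V → V
  zero : ∀ v, T 0 v = v
  add : ∀ g h v, T (g + h) v = T g (T h v)
  fin : ∃ F : Finset V, ∀ v, ∃ g, ∃ w ∈ F, v = T g w

variable {d : ℕ} {V : Type}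

/-- the restriction of an action to the multiples of `N` -/
def Act.pow (T : Act d V) (N : ℕ) (hN : 0 < N) : Act d V where
  T g := T.T (N • g)
  zero v := by rw [smul_zero, T.zero]
  add g h v := by rw [smul_add, T.add]
  fin := by
    classical
    obtain ⟨F, hF⟩ := T.fin
    refine ⟨((Finset.Icc (0 : G d) (fun _ => (N : ℤ))) ×ˢ F).image fun p => T.T p.1 p.2,
      fun v => ?_⟩
    obtain ⟨g, w, hw, rfl⟩ := hF v
    refine ⟨fun j => g j / N, T.T (fun j => g j % N) w, ?_, ?_⟩
    · refine Finset.mem_image.2 ⟨(fun j => g j % N, w), ?_, rfl⟩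
      refine Finset.mem_product.2 ⟨Finset.mem_Icc.2 ⟨fun j => ?_, fun j => ?_⟩, hw⟩
      · exact Int.emod_nonneg _ (by exact_mod_cast hN.ne')
      · exact (Int.emod_lt_of_pos _ (by exact_mod_cast hN)).le
    · rw [← T.add]
      congr 1
      funext j
      simp only [Pi.add_apply, nsmul_eq_mul]
      exact (Int.mul_ediv_add_emod (g j) N).symm

theorem Act.neg_apply (T : Act d V) (g : G d) (v : V) : T.T (-g) (T.T g v) = v := by
  rw [← T.add, neg_add_cancel, T.zero]

theorem Act.comm (T : Act d V) (g h : G d) (v : V) : T.T g (T.T h v) = T.T h (T.T g v) := by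
  rw [← T.add, ← T.add, add_comm]

variable {A : Type} [TopologicalSpace A]

/-- a nonempty closed invariant set of configurations closed under `m` -/
structure Sys (m : A → A → A → A) (T : Act d V) (S : Set (V → A)) : Prop where
  ne : S.Nonempty
  closed : IsClosed S
  mal : Mal m S
  inv : ∀ g, ∀ z ∈ S, (fun v => z (T.T g v)) ∈ S

theorem Sys.val_eq {m : A → A → A → A} {T : Act d V} {S : Set (V → A)} (h : Sys m T S)
    (g : G d) (v : V) : val S (T.T g v) = val S v := by
  apply Subset.antisymm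
  · rintro _ ⟨z, hz, rfl⟩
    exact ⟨_, h.inv g z hz, rfl⟩
  · rintro _ ⟨z, hz, rfl⟩
    refine ⟨_, h.inv (-g) z hz, ?_⟩
    simp only [T.neg_apply]

/-- all elements of `S` agree modulo `E` at the places satisfying `P` -/
def Pinned (S : Set (V → A)) (E : V → A → A → Prop) (P : V → Prop) : Prop :=
  ∀ z ∈ S, ∀ z' ∈ S, ∀ v, P v → E v (z v) (z' v)

/-- the coordinates of the second kind -/
def P2 (m : A → A → A → A) (S : Set (V → A)) (E : V → A → A → Prop) (v : V) : Prop :=
  MaxCong m (val S v) (E v) ∧ ¬ IsV1 S E v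

theorem det_shift {T : Act d V} {S : Set (V → A)} {E : V → A → A → Prop}
    (hinv : ∀ g, ∀ z ∈ S, (fun v => z (T.T g v)) ∈ S) (hEinv : ∀ g v, E (T.T g v) = E v)
    [DecidableEq V] (g : G d) {F : Finset V} {w : V} (h : Det S E F w) :
    Det S E (F.image (T.T g)) (T.T g w) := by
  intro z hz z' hz' h1
  have h2 := h _ (hinv g z hz) _ (hinv g z' hz') (by
    intro v hv
    have := h1 _ (Finset.mem_image_of_mem _ hv)
    rwa [hEinv] at this)
  rw [hEinv]
  exact h2

theorem det_shift_iff {T : Act d V} {S : Set (V → A)} {E : V → A → A → Prop}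
    (hinv : ∀ g, ∀ z ∈ S, (fun v => z (T.T g v)) ∈ S) (hEinv : ∀ g v, E (T.T g v) = E v)
    [DecidableEq V] (g : G d) {F : Finset V} {w : V} :
    Det S E (F.image (T.T g)) (T.T g w) ↔ Det S E F w := by
  refine ⟨fun h => ?_, det_shift hinv hEinv g⟩
  have h1 := det_shift hinv hEinv (-g) h
  rw [Finset.image_image, T.neg_apply] at h1
  have h2 : (T.T (-g) ∘ T.T g) = id := funext fun v => T.neg_apply g v
  rwa [h2, Finset.image_id] at h1

theorem link_shift {T : Act d V} {S : Set (V → A)} {E : V → A → A → Prop}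
    (hinv : ∀ g, ∀ z ∈ S, (fun v => z (T.T g v)) ∈ S) (hEinv : ∀ g v, E (T.T g v) = E v)
    (g : G d) {v w : V} (h : Det S E {v} w) : Det S E {T.T g v} (T.T g w) := by
  classical
  have := det_shift hinv hEinv g h
  rwa [Finset.image_singleton] at this

theorem isV1_shift {T : Act d V} {S : Set (V → A)} {E : V → A → A → Prop}
    (hinv : ∀ g, ∀ z ∈ S, (fun v => z (T.T g v)) ∈ S) (hEinv : ∀ g v, E (T.T g v) = E v)
    (g : G d) {w : V} (h : IsV1 S E w) : IsV1 S E (T.T g w) := by
  classical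
  obtain ⟨F, F₁, F₂, i, j, hi, hj, hij, hF₁, hF₂, hdet, hn1, hn2⟩ := h
  refine ⟨F.image (T.T g), F₁.image (T.T g), F₂.image (T.T g), T.T g i, T.T g j,
    Finset.mem_image_of_mem _ hi, Finset.mem_image_of_mem _ hj, ?_, ?_, ?_,
    det_shift hinv hEinv g hdet, ?_, ?_⟩
  · intro he
    apply hij
    rw [← T.neg_apply g i, he, T.neg_apply]
  · intro v hv hvi
    obtain ⟨u, hu, rfl⟩ := Finset.mem_image.1 hv
    exact Finset.mem_image_of_mem _ (hF₁ u hu fun he => hvi (by rw [he]))
  · intro v hv hvi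
    obtain ⟨u, hu, rfl⟩ := Finset.mem_image.1 hv
    exact Finset.mem_image_of_mem _ (hF₂ u hu fun he => hvi (by rw [he]))
  · rwa [det_shift_iff hinv hEinv]
  · rwa [det_shift_iff hinv hEinv]

/-- transitivity of links -/
theorem link_trans {S : Set (V → A)} {E : V → A → A → Prop} {u v w : V} (h1 : Det S E {u} v)
    (h2 : Det S E {v} w) : Det S E {u} w := by
  intro z hz z' hz' h
  refine h2 z hz z' hz' fun x hx => ?_
  rw [Finset.mem_singleton] at hx
  subst hx
  exact h1 z hz z' hz' h

theorem link_apply {S : Set (V → A)} {E : V → A → A → Prop} {v w : V} (h : Det S E {v} w)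
    {z z' : V → A} (hz : z ∈ S) (hz' : z' ∈ S) (h1 : E v (z v) (z' v)) : E w (z w) (z' w) := by
  refine h z hz z' hz' fun x hx => ?_
  rw [Finset.mem_singleton] at hx
  subst hx
  exact h1

/-- the periods of `S` modulo `E` at `v` -/
def KK {m : A → A → A → A} {T : Act d V} {S : Set (V → A)} (hS : Sys m T S)
    {E : V → A → A → Prop} (hE : ∀ v, Cong m (val S v) (E v)) (v : V) : AddSubgroup (G d) where
  carrier := {l | ∀ z ∈ S, E v (z (T.T l v)) (z v)}
  zero_mem' := by
    intro z hz
    rw [T.zero]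
    exact (hE v).refl _ (mem_val hz v)
  add_mem' := by
    intro l l' hl hl' z hz
    have h1 : E v (z (T.T l' (T.T l v))) (z (T.T l' v)) := hl _ (hS.inv l' z hz)
    rw [← T.add, add_comm] at h1
    exact (hE v).trans _ _ _ h1 (hl' z hz)
  neg_mem' := by
    intro l hl z hz
    have h1 : E v (z (T.T (-l) (T.T l v))) (z (T.T (-l) v)) := hl _ (hS.inv (-l) z hz)
    rw [T.neg_apply] at h1
    exact (hE v).symm _ _ h1

theorem mem_KK {m : A → A → A → A} {T : Act d V} {S : Set (V → A)} (hS : Sys m T S)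
    {E : V → A → A → Prop} (hE : ∀ v, Cong m (val S v) (E v)) (v : V) (l : G d) :
    l ∈ KK hS hE v ↔ ∀ z ∈ S, E v (z (T.T l v)) (z v) := Iff.rfl

theorem KK_shift {m : A → A → A → A} {T : Act d V} {S : Set (V → A)} (hS : Sys m T S)
    {E : V → A → A → Prop} (hE : ∀ v, Cong m (val S v) (E v)) (hEinv : ∀ g v, E (T.T g v) = E v)
    (g : G d) (v : V) : KK hS hE (T.T g v) = KK hS hE v := by
  ext l
  rw [mem_KK, mem_KK]
  constructor
  · intro h z hz
    have h1 : E (T.T g v) (z (T.T (-g) (T.T l (T.T g v)))) (z (T.T (-g) (T.T g v))) :=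
      h _ (hS.inv (-g) z hz)
    rw [T.comm l g, T.neg_apply, T.neg_apply, hEinv] at h1
    exact h1
  · intro h z hz
    have h1 : E v (z (T.T g (T.T l v))) (z (T.T g v)) := h _ (hS.inv g z hz)
    rw [T.comm g l] at h1
    rw [hEinv]
    exact h1

/-- a link of a coordinate with a translate has finite order -/
theorem exists_order [Finite A] {m : A → A → A → A} {T : Act d V} {S : Set (V → A)}
    (hS : Sys m T S) {E : V → A → A → Prop} (hE : ∀ v, Cong m (val S v) (E v))
    (hEinv : ∀ g v, E (T.T g v) = E v) {v : V} {l : G d} (h : Det S E {v} (T.T l v)) :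
    ∃ k : ℕ, 0 < k ∧ k • l ∈ KK hS hE v := by
  classical
  let r : Setoid (val S v) :=
    { r := fun a b => E v a.1 b.1
      iseqv := ⟨fun a => (hE v).refl _ a.2, fun h => (hE v).symm _ _ h,
        fun h h' => (hE v).trans _ _ _ h h'⟩ }
  let Q := Quotient r
  have hval : ∀ z ∈ S, z (T.T l v) ∈ val S v := fun z hz => by
    rw [← hS.val_eq l v]
    exact mem_val hz _
  let q : ∀ z : V → A, z ∈ S → Q := fun z hz => Quotient.mk r ⟨z v, mem_val hz v⟩
  let pt : val S v → (V → A) := fun a => a.2.choose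
  have hpt : ∀ a, pt a ∈ S ∧ (pt a) v = a.1 := fun a => a.2.choose_spec
  let φ : Q → Q := Quotient.lift
    (fun a : val S v => (Quotient.mk r ⟨pt a (T.T l v), hval _ (hpt a).1⟩ : Q)) (by
      intro a b hab
      apply Quotient.sound
      have h1 := link_apply h (hpt a).1 (hpt b).1 (by
        rw [(hpt a).2, (hpt b).2]
        exact hab)
      rw [hEinv] at h1
      exact h1)
  have hφ : ∀ z (hz : z ∈ S), φ (q z hz) = Quotient.mk r ⟨z (T.T l v), hval z hz⟩ := by
    intro z hz
    apply Quotient.sound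
    have h1 := link_apply h (hpt ⟨z v, mem_val hz v⟩).1 hz (by
      rw [(hpt _).2]
      exact (hE v).refl _ (mem_val hz v))
    rw [hEinv] at h1
    exact h1
  have hsurj : Function.Surjective φ := by
    intro x
    obtain ⟨⟨b, hb⟩, rfl⟩ := Quotient.exists_rep x
    have hb' := hb
    rw [← hS.val_eq l v] at hb'
    obtain ⟨z, hz, hzb⟩ := hb'
    refine ⟨q z hz, ?_⟩
    rw [hφ z hz]
    congr 1
    exact Subtype.ext hzb
  have hbij : Function.Bijective φ := Finite.injective_iff_bijective.1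
    (Finite.injective_iff_surjective.2 hsurj)
  let π : Equiv.Perm Q := Equiv.ofBijective φ hbij
  refine ⟨orderOf π, orderOf_pos π, ?_⟩
  rw [mem_KK]
  have key : ∀ n : ℕ, ∀ z (hz : z ∈ S) (h1 : z (T.T (n • l) v) ∈ val S v),
      (Quotient.mk r ⟨z (T.T (n • l) v), h1⟩ : Q) = (π ^ n) (q z hz) := by
    intro n
    induction n with
    | zero =>
      intro z hz h1
      rw [pow_zero]
      simp only [zero_smul, T.zero]
      rfl
    | succ n ih =>
      intro z hz h1
      have h2 := hS.inv (n • l) z hz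
      have h3 : z (T.T (n • l) v) ∈ val S v := mem_val h2 v
      rw [pow_succ', Equiv.Perm.mul_apply, ← ih z hz h3]
      have h4 : π (q _ h2) = Quotient.mk r ⟨z (T.T (n • l) (T.T l v)), hval _ h2⟩ := hφ _ h2
      rw [show (Quotient.mk r ⟨z (T.T (n • l) v), h3⟩ : Q) = q _ h2 from rfl, h4]
      congr 2
      rw [← T.add, succ_nsmul]
  intro z hz
  have h1 : z (T.T (orderOf π • l) v) ∈ val S v := mem_val (hS.inv _ z hz) v
  have h2 := key (orderOf π) z hz h1
  rw [pow_orderOf_eq_one] at h2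
  exact Quotient.exact h2

/-- a common period for all links of coordinates with their translates -/
theorem exists_N [Finite A] {m : A → A → A → A} {T : Act d V} {S : Set (V → A)}
    (hS : Sys m T S) {E : V → A → A → Prop} (hE : ∀ v, Cong m (val S v) (E v))
    (hEinv : ∀ g v, E (T.T g v) = E v) :
    ∃ N : ℕ, 0 < N ∧ ∀ v u, Det S E {v} (T.T (N • u) v) → N • u ∈ KK hS hE v := by
  classical
  obtain ⟨F, hF⟩ := T.fin
  choose e he1 he2 using fun w : V => exists_isolator d (KK hS hE w)
  refine ⟨∏ w ∈ F, e w, Finset.prod_pos fun w _ => he1 w, fun v u h => ?_⟩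
  obtain ⟨g, w, hw, rfl⟩ := hF v
  obtain ⟨k, hk, hk2⟩ := exists_order hS hE hEinv h
  rw [KK_shift hS hE hEinv] at hk2 ⊢
  have h1 : e w • u ∈ KK hS hE w := by
    refine he2 w u ⟨k * ∏ w ∈ F, e w, Nat.mul_pos hk (Finset.prod_pos fun w _ => he1 w), ?_⟩
    rw [mul_smul]
    exact hk2
  obtain ⟨c, hc⟩ := Finset.dvd_prod_of_mem e hw
  rw [hc, mul_comm, mul_smul]
  exact AddSubgroup.nsmul_mem _ h1 c

end Pool.Agent.H62.MC
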