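import Pool.Agent.H62.MC.Pin

/-!
Pinning the coordinates of the second kind to a periodic pattern (MP_cb0c3a_an, helper62).
-/

set_option autoImplicit false

open Set

namespace Pool.Agent.H62.MC

variable {d : ℕ} {V : Type} {A : Type} [TopologicalSpace A]

/-- compactness -/
theorem exists_of_finite [Finite A] [DiscreteTopology A] {S : Set (V → A)} (hS : IsClosed S)
    {I : Type} (P : I → Set (V → A)) (hP : ∀ i, IsClosed (P i))
    (hfin : ∀ F : Finset I, ∃ z ∈ S, ∀ i ∈ F, z ∈ P i) : ∃ z ∈ S, ∀ i, z ∈ P i := by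
  have h := hS.isCompact.inter_iInter_nonempty P hP (by
    intro F
    obtain ⟨z, hz, h1⟩ := hfin F
    exact ⟨z, hz, mem_iInter₂.2 h1⟩)
  obtain ⟨z, hz, h1⟩ := h
  exact ⟨z, hz, mem_iInter.1 h1⟩

theorem isClosed_coord [DiscreteTopology A] (v : V) (Q : A → Prop) :
    IsClosed {z : V → A | Q (z v)} := by
  have h0 : Continuous fun z : V → A => z v := continuous_apply v
  exact (isClosed_discrete {x | Q x}).preimage h0

theorem P2_shift {m : A → A → A → A} {T : Act d V} {S : Set (V → A)} (hS : Sys m T S)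
    {E : V → A → A → Prop} (hEinv : ∀ g v, E (T.T g v) = E v) (g : G d) {v : V}
    (h : P2 m S E v) : P2 m S E (T.T g v) := by
  refine ⟨?_, fun h1 => h.2 ?_⟩
  · rw [hS.val_eq, hEinv]
    exact h.1
  · have := isV1_shift hS.inv hEinv (-g) h1
    rwa [T.neg_apply] at this

/-- The coordinates of the second kind can be pinned to a periodic pattern. -/
theorem pin2 [Finite A] [DiscreteTopology A] {m : A → A → A → A} (hm : IsMaltsev m)
    {T : Act d V} {S : Set (V → A)} (hS : Sys m T S) {E : V → A → A → Prop}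
    (hE : ∀ v, Cong m (val S v) (E v)) (hEinv : ∀ g v, E (T.T g v) = E v) :
    ∃ (N : ℕ) (hN : 0 < N) (S' : Set (V → A)), S' ⊆ S ∧ Sys m (T.pow N hN) S' ∧
      Pinned S' E (P2 m S E) := by
  classical
  obtain ⟨N, hN, hNK⟩ := exists_N hS hE hEinv
  obtain ⟨s, hs⟩ := hS.ne
  -- two translates which are linked with the same coordinate
  have core : ∀ {ρ α β : V} {t : G d}, P2 m S E ρ → P2 m S E α → Det S E {ρ} α →
      Det S E {ρ} β → β = T.T (N • t) α → ∀ z ∈ S, E α (z β) (z α) := by
    rintro ρ α β t hρ hα h1 h2 rfl z hz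
    have h3 := link_trans (link_symm hm hS.mal hE hρ.1 hα.1 h1) h2
    exact hNK α t h3 z hz
  let P := {v : V // P2 m S E v}
  have hrefl : ∀ v : V, Det S E {v} v := fun v z _ z' _ h => h v (Finset.mem_singleton_self v)
  let r : Setoid P :=
    { r := fun v w => ∃ u : G d, Det S E {T.T (N • u) v.1} w.1
      iseqv := by
        refine ⟨fun v => ⟨0, ?_⟩, ?_, ?_⟩
        · rw [smul_zero, T.zero]
          exact hrefl _
        · rintro v w ⟨u, hu⟩
          have h1 := link_symm hm hS.mal hE (P2_shift hS hEinv (N • u) v.2).1 w.2.1 hu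
          have h2 := link_shift hS.inv hEinv (-(N • u)) h1
          rw [T.neg_apply, ← smul_neg] at h2
          exact ⟨-u, h2⟩
        · rintro v w x ⟨u, hu⟩ ⟨u', hu'⟩
          have h1 := link_shift hS.inv hEinv (N • u') hu
          rw [← T.add, ← smul_add] at h1
          exact ⟨u' + u, link_trans h1 hu'⟩ }
  let rep : P → P := fun w => (Quotient.mk r w).out
  have hrep : ∀ w : P, ∃ u : G d, Det S E {T.T (N • u) (rep w).1} w.1 :=
    fun w => Quotient.exact (Quotient.out_eq (Quotient.mk r w))
  have hrep_eq : ∀ {v w : P} (u : G d), Det S E {T.T (N • u) v.1} w.1 → rep v = rep w := by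
    intro v w u h
    have h1 : Quotient.mk r v = Quotient.mk r w := Quotient.sound ⟨u, h⟩
    simp only [rep, h1]
  choose u hu using hrep
  let α : P → V := fun w => T.T (-(N • u w)) w.1
  have hα : ∀ w, Det S E {(rep w).1} (α w) := by
    intro w
    have h1 := link_shift hS.inv hEinv (-(N • u w)) (hu w)
    rwa [T.neg_apply] at h1
  have hαP : ∀ w, P2 m S E (α w) := fun w => P2_shift hS hEinv _ w.2
  have hEα : ∀ w : P, E (α w) = E w.1 := fun w => hEinv _ _
  let a : V → A := fun v => if h : P2 m S E v then s (α ⟨v, h⟩) else s v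
  have ha : ∀ w : P, a w.1 = s (α w) := fun w => dif_pos w.2
  have haval : ∀ w : P, a w.1 ∈ val S w.1 := by
    intro w
    rw [ha, ← hS.val_eq (-(N • u w)) w.1]
    exact mem_val hs _
  -- consistency along links
  have hcons : ∀ v w : P, Det S E {v.1} w.1 → ∀ z ∈ S, E v.1 (z v.1) (a v.1) →
      E w.1 (z w.1) (a w.1) := by
    intro v w hvw z hz hzv
    have hr : rep v = rep w := hrep_eq 0 (by rw [smul_zero, T.zero]; exact hvw)
    have h1 := link_shift hS.inv hEinv (-(N • u v)) hvw
    have h2 : Det S E {(rep w).1} (T.T (-(N • u v)) w.1) := by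
      rw [← hr]
      exact link_trans (hα v) h1
    have h3 : E (α w) (s (T.T (-(N • u v)) w.1)) (s (α w)) := by
      refine core (rep w).2 (hαP w) (hα w) h2 (t := u w - u v) ?_ s hs
      simp only [α]
      rw [← T.add, smul_sub]
      congr 1
      abel
    rw [hEα] at h3
    have h4 := hS.inv (-(N • u v)) s hs
    rw [ha] at hzv
    have h5 : E w.1 (z w.1) (s (T.T (-(N • u v)) w.1)) := link_apply hvw hz h4 hzv
    rw [ha]
    exact (hE _).trans _ _ _ h5 h3
  -- periodicity
  have hper : ∀ (w : P) (t : G d), E w.1 (a (T.T (N • t) w.1)) (a w.1) := by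
    intro w t
    let w' : P := ⟨T.T (N • t) w.1, P2_shift hS hEinv _ w.2⟩
    have hr : rep w = rep w' := hrep_eq t (hrefl _)
    have h2 : Det S E {(rep w).1} (α w') := by
      rw [hr]
      exact hα w'
    have h3 : E (α w) (s (α w')) (s (α w)) := by
      refine core (rep w).2 (hαP w) (hα w) h2 (t := t - u w' + u w) ?_ s hs
      simp only [α, w']
      rw [← T.add, ← T.add, smul_add, smul_sub]
      congr 1
      abel
    rw [hEα] at h3
    rw [ha w, show a (T.T (N • t) w.1) = s (α w') from ha w']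
    exact h3
  refine ⟨N, hN, {z | z ∈ S ∧ ∀ w : P, E w.1 (z w.1) (a w.1)}, fun z hz => hz.1, ?_, ?_⟩
  · refine ⟨?_, ?_, ?_, ?_⟩
    · obtain ⟨z, hz, h1⟩ := exists_of_finite hS.closed
        (fun w : P => {z : V → A | E w.1 (z w.1) (a w.1)})
        (fun w => isClosed_coord w.1 fun x => E w.1 x (a w.1)) (by
          intro F
          obtain ⟨z, hz, h1⟩ := realize hm hS.mal hE (a := a) (F.image Subtype.val)
            (by
              intro v hv
              obtain ⟨w, -, rfl⟩ := Finset.mem_image.1 hv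
              exact w.2.1)
            (by
              intro v hv
              obtain ⟨w, -, rfl⟩ := Finset.mem_image.1 hv
              exact w.2.2)
            (by
              intro v hv
              obtain ⟨w, -, rfl⟩ := Finset.mem_image.1 hv
              exact haval w)
            hS.ne
            (by
              intro v hv x hx
              obtain ⟨v, -, rfl⟩ := Finset.mem_image.1 hv
              obtain ⟨x, -, rfl⟩ := Finset.mem_image.1 hx
              exact hcons v x)
          exact ⟨z, hz, fun w hw => h1 w.1 (Finset.mem_image_of_mem _ hw)⟩)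
      exact ⟨z, hz, h1⟩
    · have h1 : {z : V → A | z ∈ S ∧ ∀ w : P, E w.1 (z w.1) (a w.1)} =
          S ∩ ⋂ w : P, {z : V → A | E w.1 (z w.1) (a w.1)} := by
        ext z
        simp only [mem_ofPred_eq, mem_inter_iff, mem_iInter]
      rw [h1]
      exact hS.closed.inter (isClosed_iInter fun w =>
        isClosed_coord w.1 fun x => E w.1 x (a w.1))
    · rintro x ⟨hx, hx'⟩ y ⟨hy, hy'⟩ z ⟨hz, hz'⟩
      refine ⟨hS.mal x hx y hy z hz, fun w => ?_⟩
      have h1 := (hE w.1).comp _ _ _ _ _ _ (hx' w) (hy' w) (hz' w)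
      rwa [hm.1] at h1
    · rintro g z ⟨hz, hz'⟩
      refine ⟨hS.inv (N • g) z hz, fun w => ?_⟩
      have h1 := hz' ⟨T.T (N • g) w.1, P2_shift hS hEinv _ w.2⟩
      simp only at h1
      rw [hEinv] at h1
      exact (hE _).trans _ _ _ h1 (hper w g)
  · rintro z ⟨-, hz⟩ z' ⟨-, hz'⟩ v hv
    exact (hE v).trans _ _ _ (hz ⟨v, hv⟩) ((hE v).symm _ _ (hz' ⟨v, hv⟩))

end Pool.Agent.H62.MC
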