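import Pool.Agent.H62.MC.Pin2
import Pool.Agent.H62.MC.Affine

/-!
Pinning the affine coordinates modulo `p` to a periodic pattern (MP_cb0c3a_an, helper62).
-/

set_option autoImplicit false

open Set

namespace Pool.Agent.H62.MC

variable {d : ℕ} {V : Type} {A : Type} [TopologicalSpace A]

/-- pinning for labels defined at all places -/
theorem pinP_aux [Finite A] [DiscreteTopology A] {m : A → A → A → A}
    {T : Act d V} {S : Set (V → A)} (hS : Sys m T S) (p : ℕ) [Fact p.Prime]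
    (lab : V → A → ZMod p) (hinv : ∀ g v, lab (T.T g v) = lab v)
    (hlab : ∀ v, ∀ x ∈ val S v, ∀ y ∈ val S v, ∀ z ∈ val S v,
      lab v (m x y z) = lab v x - lab v y + lab v z) :
    ∃ (N : ℕ) (hN : 0 < N) (S' : Set (V → A)), S' ⊆ S ∧ Sys m (T.pow N hN) S' ∧
      ∀ z ∈ S', ∀ z' ∈ S', ∀ v, lab v (z v) = lab v (z' v) := by
  classical
  obtain ⟨F, hF⟩ := T.fin
  let w : Fin F.card → V := fun j => (F.equivFin.symm j).1
  have hw : ∀ v, ∃ g j, v = T.T g (w j) := by
    intro v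
    obtain ⟨g, x, hx, hv⟩ := hF v
    refine ⟨g, F.equivFin ⟨x, hx⟩, ?_⟩
    simp only [w, Equiv.symm_apply_apply]
    exact hv
  let f : (V → A) → (G d → Fin F.card → ZMod p) := fun z g j => lab (w j) (z (T.T g (w j)))
  have hfcl : ∀ (t : G d → Fin F.card → ZMod p) (q : G d × Fin F.card),
      IsClosed {z : V → A | f z q.1 q.2 = t q.1 q.2} := fun t q =>
    isClosed_coord (T.T q.1 (w q.2)) fun x => lab (w q.2) x = t q.1 q.2
  have hfm : ∀ x ∈ S, ∀ y ∈ S, ∀ z ∈ S, ∀ g j,
      f (fun v => m (x v) (y v) (z v)) g j = f x g j - f y g j + f z g j := by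
    intro x hx y hy z hz g j
    have h1 := hlab (T.T g (w j)) _ (mem_val hx _) _ (mem_val hy _) _ (mem_val hz _)
    rw [hinv] at h1
    exact h1
  obtain ⟨r, t, ⟨s, hs, hst⟩, hper⟩ := affine_periodic d F.card p (f '' S) (hS.ne.image f)
    (by
      intro t ht
      obtain ⟨z, hz, h1⟩ := exists_of_finite hS.closed
        (fun q : G d × Fin F.card => {z : V → A | f z q.1 q.2 = t q.1 q.2}) (hfcl t) (by
          intro I
          obtain ⟨_, ⟨z, hz, rfl⟩, h1⟩ := ht (I.image Prod.fst)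
          refine ⟨z, hz, fun q hq => ?_⟩
          have h2 := h1 q.1 (Finset.mem_image_of_mem _ hq)
          exact congrFun h2 q.2)
      refine ⟨z, hz, ?_⟩
      funext g j
      exact h1 (g, j))
    (by
      rintro _ ⟨x, hx, rfl⟩ _ ⟨y, hy, rfl⟩ _ ⟨z, hz, rfl⟩
      refine ⟨_, hS.mal x hx y hy z hz, ?_⟩
      funext g j
      exact hfm x hx y hy z hz g j)
    (by
      rintro g _ ⟨z, hz, rfl⟩
      refine ⟨_, hS.inv g z hz, ?_⟩
      funext h j
      simp only [f]
      rw [← T.add, add_comm])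
  have hN : 0 < p ^ r := pow_pos (Fact.out : p.Prime).pos r
  refine ⟨p ^ r, hN, {z | z ∈ S ∧ ∀ q : G d × Fin F.card, f z q.1 q.2 = t q.1 q.2},
    fun z hz => hz.1, ⟨?_, ?_, ?_, ?_⟩, ?_⟩
  · exact ⟨s, hs, fun q => by rw [hst]⟩
  · have h1 : {z : V → A | z ∈ S ∧ ∀ q : G d × Fin F.card, f z q.1 q.2 = t q.1 q.2} =
        S ∩ ⋂ q : G d × Fin F.card, {z : V → A | f z q.1 q.2 = t q.1 q.2} := by
      ext z
      simp only [mem_ofPred_eq, mem_inter_iff, mem_iInter]
    rw [h1]
    exact hS.closed.inter (isClosed_iInter (hfcl t))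
  · rintro x ⟨hx, hx'⟩ y ⟨hy, hy'⟩ z ⟨hz, hz'⟩
    refine ⟨hS.mal x hx y hy z hz, fun q => ?_⟩
    rw [hfm x hx y hy z hz, hx' q, hy' q, hz' q, sub_self, zero_add]
  · rintro g z ⟨hz, hz'⟩
    refine ⟨hS.inv ((p ^ r) • g) z hz, fun q => ?_⟩
    have h1 := hz' (q.1 + (p ^ r) • g, q.2)
    simp only at h1
    rw [hper] at h1
    rw [← h1]
    simp only [f, Act.pow]
    rw [← T.add, add_comm]
  · rintro z ⟨-, hz⟩ z' ⟨-, hz'⟩ v
    obtain ⟨g, j, rfl⟩ := hw v
    rw [hinv]
    have h1 := hz (g, j)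
    have h2 := hz' (g, j)
    exact h1.trans h2.symm

/-- pinning for labels defined at the places satisfying `P` -/
theorem pinP [Finite A] [DiscreteTopology A] {m : A → A → A → A}
    {T : Act d V} {S : Set (V → A)} (hS : Sys m T S) (p : ℕ) [Fact p.Prime]
    (P : V → Prop) (hP : ∀ g v, P v → P (T.T g v))
    (lam : V → A → ZMod p) (hinv : ∀ g v, P v → lam (T.T g v) = lam v)
    (hlam : ∀ v, P v → ∀ x ∈ val S v, ∀ y ∈ val S v, ∀ z ∈ val S v,
      lam v (m x y z) = lam v x - lam v y + lam v z) :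
    ∃ (N : ℕ) (hN : 0 < N) (S' : Set (V → A)), S' ⊆ S ∧ Sys m (T.pow N hN) S' ∧
      ∀ z ∈ S', ∀ z' ∈ S', ∀ v, P v → lam v (z v) = lam v (z' v) := by
  classical
  obtain ⟨N, hN, S', h1, h2, h3⟩ := pinP_aux hS p (fun v x => if P v then lam v x else 0)
    (by
      intro g v
      funext x
      by_cases hv : P v
      · rw [if_pos hv, if_pos (hP g v hv), hinv g v hv]
      · have hv' : ¬ P (T.T g v) := fun h => hv (by
          have := hP (-g) _ h
          rwa [T.neg_apply] at this)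
        rw [if_neg hv, if_neg hv'])
    (by
      intro v x hx y hy z hz
      by_cases hv : P v
      · simp only [if_pos hv]
        exact hlam v hv x hx y hy z hz
      · simp only [if_neg hv, sub_self, add_zero])
  refine ⟨N, hN, S', h1, h2, fun z hz z' hz' v hv => ?_⟩
  have := h3 z hz z' hz' v
  simpa only [if_pos hv] using this

end Pool.Agent.H62.MC
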